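import Mathlib
import Pool.Agent.Run7.h794.QT.C

/-! The twisted sums with the Jacobi symbol written out (helper794). -/

set_option autoImplicit false

namespace Pool.Agent.Run7.h794.QT

open Finset

/-- `∑_{n ≤ M} a_n (n/d) e(θ_0 n + θ_1 n ^ 2 + ... + θ_{D-1} n ^ D) n ^ (it)`, `(n/d)` the Jacobi symbol -/
noncomputable def twist {D : ℕ} (a : ℕ → ℂ) (d M : ℕ) (θ : Fin D → ℝ) (t : ℝ) : ℂ :=
  ∑ n ∈ Icc 1 M, a n * ((jacobiSym (n : ℤ) d : ℤ) : ℂ) *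
    Complex.exp (2 * Real.pi * Complex.I * ∑ j, (θ j : ℂ) * (n : ℂ) ^ (j.val + 1)) * (n : ℂ) ^ ((t : ℂ) * Complex.I)

lemma twist_eq {D : ℕ} (a : ℕ → ℂ) {d : ℕ} (hd : Odd d) (M : ℕ) (θ : Fin D → ℝ) (t : ℝ) :
    twist a d M θ t = ∑ n ∈ Icc 1 M, a n * (chi n d : ℂ) * ph θ t n := by
  unfold twist
  apply sum_congr rfl
  intro n hn
  have hn0 : (n : ℂ) ≠ 0 := by
    have := (mem_Icc.1 hn).1
    exact_mod_cast (by omega : n ≠ 0)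
  rw [chi_odd hd, mul_assoc (a n * _), Complex.cpow_def_of_ne_zero hn0, ← Complex.exp_add]
  congr 1
  unfold ph
  congr 1
  rw [← Complex.natCast_log]
  push_cast
  ring

/-- **Almost all quadratic twists, uniformly in polynomial phases.** -/
theorem main (A B D : ℕ) {u : ℝ} (hu : 0 < u) : ∃ K : ℕ, ∃ C : ℝ, 0 < C ∧ ∀ N : ℕ, 1 ≤ N → ∀ x P : ℕ, N ^ K ≤ P →
    ∀ F : Finset (ℕ → ℂ), F.card ≤ N ^ B → (∀ a ∈ F, ∀ n, ‖a n‖ ≤ 1) →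
    ∃ Bad ⊆ Ioc x (x + P), Bad.card * N ^ B ≤ P ∧ ∀ d ∈ Ioc x (x + P), Odd d → d ∉ Bad → ∀ a ∈ F, ∀ M ≤ N,
      ∀ (θ : Fin D → ℝ) (t : ℝ), |t| ≤ (N : ℝ) ^ A → ‖twist a d M θ t‖ ≤ C * (N : ℝ) ^ (1 / 2 + u) := by
  obtain ⟨K, C, hC, h⟩ := twists A B D hu
  refine ⟨K, C, hC, fun N hN x P hP F hF ha => ?_⟩
  obtain ⟨Bad, h1, h2, h3⟩ := h N hN x P hP F hF ha
  refine ⟨Bad, h1, h2, fun d hd hodd hdB a haF M hM θ t ht => ?_⟩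
  rw [twist_eq a hodd]
  exact h3 d hd hdB a haF M hM θ t ht

end Pool.Agent.Run7.h794.QT
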